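import Pool.Agent.Q179.PH.Poly

/-! Distribution modulo one of polynomials, weighted by synchronous functions of contracting generalised Collatz maps. -/

set_option autoImplicit false

namespace Pool.Agent.Q179.PH

open Finset Filter Topology Pool.Agent.Y965.GP Pool.Agent.H319R3.GC Polynomial Pool.Agent.Y965.PS
open Pool.Agent.H332R2.Lit (e)

variable {d : ℕ} {m r : ℕ → ℤ}

theorem irr_away {α : ℝ} (hα : Irrational α) (M : ℕ) : ∃ η : ℝ, 0 < η ∧ ∀ l ∈ Icc 1 M, η ≤ |(l : ℝ) * α - round ((l : ℝ) * α)| := by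
  induction M with
  | zero => exact ⟨1, one_pos, fun l hl => by simp at hl⟩
  | succ M ih =>
    obtain ⟨η, h0, h1⟩ := ih
    have h2 : 0 < |((M + 1 : ℕ) : ℝ) * α - round (((M + 1 : ℕ) : ℝ) * α)| := by
      rw [abs_pos, sub_ne_zero]
      intro h3
      have h4 : Irrational (((M + 1 : ℕ) : ℝ) * α) := by
        rw [irrational_natCast_mul_iff]
        exact ⟨by omega, hα⟩
      exact h4.ne_int _ h3
    refine ⟨min η (|((M + 1 : ℕ) : ℝ) * α - round (((M + 1 : ℕ) : ℝ) * α)|), lt_min h0 h2, fun l hl => ?_⟩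
    rw [mem_Icc] at hl
    rcases Nat.lt_or_ge l (M + 1) with h3 | h3
    · exact (min_le_left _ _).trans (h1 l (by rw [mem_Icc]; omega))
    · have : l = M + 1 := by omega
      subst this
      exact min_le_right _ _

/-- polynomials with a fixed irrational leading coefficient -/
theorem weylIrr (hA : Adm d m r) {k : ℕ} (hk : 2 ≤ k) {α : ℝ} (hα : Irrational α) {ε : ℝ} (hε : 0 < ε) :
    ∃ N0 : ℕ, ∀ N : ℕ, N0 ≤ N → ∀ s : ℤ, (s = 1 ∨ s = -1) → ∀ P : ℝ[X], P.natDegree ≤ k → P.coeff k = α →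
      ∀ F : ℤ → ℝ, Syn d m r F → ‖∑ n ∈ Icc 1 N, (F (s * (n : ℤ)) : ℂ) * e (P.eval (n : ℝ))‖ ≤ ε * N := by
  obtain ⟨M, -, H⟩ := weylSyn hA hk hε
  obtain ⟨η, hη, h1⟩ := irr_away hα M
  obtain ⟨N0, hN0⟩ := H η hη
  exact ⟨N0, fun N hN s hs P hP hPc F hF => hN0 N hN s hs P hP (by rw [hPc]; exact h1) F hF⟩

theorem e_eq (x : ℝ) : Pool.Agent.H469R2.NK.e x = e x := by
  unfold Pool.Agent.H469R2.NK.e e
  congr 1
  push_cast; ring

theorem psiSyn (hA : Adm d m r) {k : ℕ} (hk : 2 ≤ k) {α : ℝ} (hα : Irrational α) {ε : ℝ} (hε : 0 < ε) :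
    ∃ N0 : ℕ, ∀ N : ℕ, N0 ≤ N → ∀ s : ℤ, (s = 1 ∨ s = -1) → ∀ P : ℝ[X], P.natDegree ≤ k → P.coeff k = α →
      ∀ F : ℤ → ℝ, Syn d m r F → (∀ x, 0 ≤ F x) →
      |∑ n ∈ Icc 1 N, F (s * (n : ℤ)) * psi (P.eval (n : ℝ))| ≤ ε * N := by
  set η : ℝ := min (ε / 4) (1 / 2) with hη
  have hη0 : 0 < η := lt_min (by positivity) (by norm_num)
  have hη1 : η < 1 := lt_of_le_of_lt (min_le_right _ _) (by norm_num)
  have hη2 : η ≤ ε / 4 := min_le_left _ _
  obtain ⟨K, hK⟩ := exists_nat_ge (2 / η / (ε / 4) + 1)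
  have hK0 : (0 : ℝ) < K := lt_of_lt_of_le (by positivity) hK
  have hK1 : 1 ≤ K := by exact_mod_cast hK0
  have hj : ∀ j : ℕ, ∃ N0 : ℕ, 1 ≤ j → ∀ N : ℕ, N0 ≤ N → ∀ s : ℤ, (s = 1 ∨ s = -1) → ∀ P : ℝ[X], P.natDegree ≤ k →
      P.coeff k = j * α → ∀ F : ℤ → ℝ, Syn d m r F →
      ‖∑ n ∈ Icc 1 N, (F (s * (n : ℤ)) : ℂ) * e (P.eval (n : ℝ))‖ ≤ ε / (4 * K) * N := by
    intro j
    by_cases h1 : 1 ≤ j
    · have h2 : Irrational ((j : ℝ) * α) := by
        rw [irrational_natCast_mul_iff]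
        exact ⟨by omega, hα⟩
      obtain ⟨N0, h3⟩ := weylIrr hA hk h2 (show 0 < ε / (4 * K) by positivity)
      exact ⟨N0, fun _ => h3⟩
    · exact ⟨0, fun h => absurd h h1⟩
  choose Nf hNf using hj
  refine ⟨(Icc 1 K).sup Nf, fun N hN s hs P hP hPc F hF hF0 => ?_⟩
  have key := psi_sum (Icc 1 N) (F := fun n : ℕ => F (s * (n : ℤ))) (fun n => hF0 _) (fun n => (abs_le.1 (hF.1 _)).2)
    (fun n : ℕ => P.eval (n : ℝ)) hK1 hη0 hη1
  have hcard : ((Icc 1 N).card : ℝ) = N := by rw [Nat.card_Icc, Nat.add_sub_cancel]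
  rw [hcard] at key
  refine key.trans ?_
  have hNR : (0 : ℝ) ≤ N := Nat.cast_nonneg _
  have h1 : ∑ j ∈ Icc 1 K, 1 / (j : ℝ) * ‖∑ n ∈ Icc 1 N, (F (s * (n : ℤ)) : ℂ) * Pool.Agent.H469R2.NK.e (j * P.eval (n : ℝ))‖
      ≤ K * (ε / (4 * K) * N) := by
    calc _ ≤ ∑ _j ∈ Icc 1 K, (ε / (4 * K) * N) := by
          apply sum_le_sum
          intro j hj
          have hj' := hj
          rw [mem_Icc] at hj
          have h2 := hNf j hj.1 N ((Finset.le_sup hj').trans hN) s hs (Polynomial.C (j : ℝ) * P)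
            ((natDegree_C_mul_le _ _).trans hP) (by rw [coeff_C_mul, hPc]) F hF
          simp only [eval_mul, eval_C] at h2
          simp only [e_eq]
          have h3 : 1 / (j : ℝ) ≤ 1 := by
            rw [div_le_one (by exact_mod_cast hj.1)]
            exact_mod_cast hj.1
          calc _ ≤ 1 * ‖∑ n ∈ Icc 1 N, (F (s * (n : ℤ)) : ℂ) * e (j * P.eval (n : ℝ))‖ :=
                mul_le_mul_of_nonneg_right h3 (norm_nonneg _)
            _ ≤ _ := by rw [one_mul]; exact h2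
      _ = _ := by rw [sum_const, Nat.card_Icc, Nat.add_sub_cancel, nsmul_eq_mul]
  have h2 : (K : ℝ) * (ε / (4 * K) * N) = ε / 4 * N := by field_simp
  have h3 : 2 * (N : ℝ) / (η * K) ≤ ε / 4 * N := by
    have h4 : 2 / η / (ε / 4) ≤ K := by linarith
    rw [div_le_iff₀ (by positivity), div_le_iff₀ hη0] at h4
    rw [div_le_iff₀ (by positivity)]
    nlinarith
  have h5 : η * (N : ℝ) ≤ ε / 4 * N := mul_le_mul_of_nonneg_right hη2 hNR
  have h6 : 0 ≤ ε * N := by positivity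
  linarith

theorem syn_one : Syn d m r (fun _ => 1) := ⟨fun _ => by simp, fun _ _ _ _ _ _ => rfl⟩

theorem psiSyn' (hA : Adm d m r) {k : ℕ} (hk : 2 ≤ k) {α : ℝ} (hα : Irrational α) {ε : ℝ} (hε : 0 < ε) :
    ∃ N0 : ℕ, ∀ N : ℕ, N0 ≤ N → ∀ s : ℤ, (s = 1 ∨ s = -1) → ∀ P : ℝ[X], P.natDegree ≤ k → P.coeff k = α →
      ∀ F : ℤ → ℝ, Syn d m r F → |∑ n ∈ Icc 1 N, F (s * (n : ℤ)) * psi (P.eval (n : ℝ))| ≤ ε * N := by
  obtain ⟨N0, H⟩ := psiSyn hA hk hα (show 0 < ε / 3 by positivity)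
  refine ⟨N0, fun N hN s hs P hP hPc F hF => ?_⟩
  have hF' : Syn d m r (fun x => (1 + F x) / 2) := by
    refine ⟨fun x => ?_, fun j x y h1 h2 h3 => by simp only [hF.2 j x y h1 h2 h3]⟩
    have := abs_le.1 (hF.1 x)
    rw [abs_le]; constructor <;> linarith [this.1, this.2]
  have h1 := H N hN s hs P hP hPc _ hF' (fun x => by
    have := abs_le.1 (hF.1 x)
    linarith [this.1])
  have h2 := H N hN s hs P hP hPc _ (syn_one (d := d) (m := m) (r := r)) (fun _ => zero_le_one)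
  have e1 : ∑ n ∈ Icc 1 N, F (s * (n : ℤ)) * psi (P.eval (n : ℝ)) =
      2 * ∑ n ∈ Icc 1 N, (1 + F (s * (n : ℤ))) / 2 * psi (P.eval (n : ℝ)) - ∑ n ∈ Icc 1 N, 1 * psi (P.eval (n : ℝ)) := by
    rw [mul_sum, ← sum_sub_distrib]
    apply sum_congr rfl; intro n _
    ring
  rw [e1]
  refine (abs_sub _ _).trans ?_
  rw [abs_mul, abs_two]
  linarith

theorem fract_ind {u v : ℝ} (hu : 0 ≤ u) (huv : u ≤ v) (hv : v ≤ 1) (x : ℝ) :
    (if u ≤ Int.fract x ∧ Int.fract x < v then (1 : ℝ) else 0) = (v - u) + (psi (x - v) - psi (x - u)) := by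
  have key : ∀ w : ℝ, 0 ≤ w → w ≤ 1 → Int.fract (x - w) = Int.fract x - w + if Int.fract x < w then 1 else 0 := by
    intro w hw0 hw1
    have h0 := Int.fract_nonneg x
    have h1 := Int.fract_lt_one x
    by_cases h : Int.fract x < w
    · rw [if_pos h, Int.fract_eq_iff]
      refine ⟨by linarith, by linarith, ⌊x⌋ - 1, ?_⟩
      push_cast
      have := Int.floor_add_fract x
      linarith
    · rw [if_neg h, add_zero, Int.fract_eq_iff]
      push Not at h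
      refine ⟨by linarith, by linarith, ⌊x⌋, ?_⟩
      have := Int.floor_add_fract x
      linarith
  unfold psi
  rw [key v (by linarith) hv, key u hu (by linarith)]
  by_cases h1 : Int.fract x < u
  · rw [if_neg (fun h => by linarith [h.1]), if_pos h1, if_pos (by linarith)]; ring
  · push Not at h1
    by_cases h2 : Int.fract x < v
    · rw [if_pos ⟨h1, h2⟩, if_pos h2, if_neg (not_lt.2 h1)]; ring
    · rw [if_neg (fun h => h2 h.2), if_neg h2, if_neg (not_lt.2 h1)]; ring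

open Classical in
/-- DISCREPANCY -/
theorem disc (hA : Adm d m r) {k : ℕ} (hk : 2 ≤ k) {α : ℝ} (hα : Irrational α) {ε : ℝ} (hε : 0 < ε) :
    ∃ N0 : ℕ, ∀ N : ℕ, N0 ≤ N → ∀ s : ℤ, (s = 1 ∨ s = -1) → ∀ P : ℝ[X], P.natDegree ≤ k → P.coeff k = α →
      ∀ F : ℤ → ℝ, Syn d m r F → ∀ u v : ℝ, 0 ≤ u → u ≤ v → v ≤ 1 →
      |∑ n ∈ (Icc 1 N).filter (fun n : ℕ => u ≤ Int.fract (P.eval (n : ℝ)) ∧ Int.fract (P.eval (n : ℝ)) < v), F (s * (n : ℤ))
        - (v - u) * ∑ n ∈ Icc 1 N, F (s * (n : ℤ))| ≤ ε * N := by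
  obtain ⟨N0, H⟩ := psiSyn' hA hk hα (show 0 < ε / 2 by positivity)
  refine ⟨N0, fun N hN s hs P hP hPc F hF u v hu huv hv => ?_⟩
  have hsub : ∀ w : ℝ, |∑ n ∈ Icc 1 N, F (s * (n : ℤ)) * psi (P.eval (n : ℝ) - w)| ≤ ε / 2 * N := by
    intro w
    have h1 : (P - Polynomial.C w).natDegree ≤ k := by
      refine (natDegree_sub_le _ _).trans ?_
      rw [natDegree_C]
      omega
    have h2 : (P - Polynomial.C w).coeff k = α := by
      rw [coeff_sub, coeff_C, if_neg (by omega), sub_zero]; exact hPc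
    have h3 := H N hN s hs _ h1 h2 F hF
    simpa using h3
  have e1 : ∑ n ∈ (Icc 1 N).filter (fun n : ℕ => u ≤ Int.fract (P.eval (n : ℝ)) ∧ Int.fract (P.eval (n : ℝ)) < v), F (s * (n : ℤ))
      - (v - u) * ∑ n ∈ Icc 1 N, F (s * (n : ℤ))
      = ∑ n ∈ Icc 1 N, F (s * (n : ℤ)) * psi (P.eval (n : ℝ) - v) - ∑ n ∈ Icc 1 N, F (s * (n : ℤ)) * psi (P.eval (n : ℝ) - u) := by
    rw [sum_filter, mul_sum, ← sum_sub_distrib, ← sum_sub_distrib]
    apply sum_congr rfl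
    intro n _
    have h1 := fract_ind hu huv hv (P.eval (n : ℝ))
    have h2 : (if u ≤ Int.fract (P.eval (n : ℝ)) ∧ Int.fract (P.eval (n : ℝ)) < v then F (s * (n : ℤ)) else 0)
        = F (s * (n : ℤ)) * (if u ≤ Int.fract (P.eval (n : ℝ)) ∧ Int.fract (P.eval (n : ℝ)) < v then (1 : ℝ) else 0) := by
      rw [mul_ite, mul_one, mul_zero]
    rw [h2, h1]; ring
  rw [e1]
  refine (abs_sub _ _).trans ?_
  have h1 := hsub v
  have h2 := hsub u
  linarith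

end Pool.Agent.Q179.PH
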