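import Pool.Agent.Q179.PH.Disc
import Pool.Agent.Q42.SH.Scales
import Pool.Agent.Y842.EL.Dens

/-! Synchronous functions of contracting generalised Collatz maps, the number of prime factors modulo `q` and
quadratic phases. -/

set_option autoImplicit false

namespace Pool.Agent.Q179.PH

open Finset Filter Topology Pool.Agent.Y965.GP Pool.Agent.H319R3.GC Pool.Agent.Y965.PS
open Pool.Agent.H332R2.Lit (e)
open Pool.Agent.Helper602.MK (ee)
open Pool.Agent.Helper602.MK.N_J1c (c_ee_add c_ee_int c_norm_ee)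
open Pool.Agent.Y958.U (LZ)
open ArithmeticFunction (cardFactors)

/-- a root of unity -/
noncomputable def zr (q i : ℕ) : ℂ := ee ((i : ℝ) / q)

theorem zr_norm (q i : ℕ) : ‖zr q i‖ = 1 := c_norm_ee _

/-- one exceptional set of scales for all roots of unity -/
theorem uniE : ∃ E : Set ℕ, LZ E ∧ ∀ q i : ℕ, zr q i ≠ 1 → ∀ a c : ℕ, a ≠ c →
    ∀ ε : ℝ, 0 < ε → ∃ N₀ : ℕ, ∀ N : ℕ, N₀ ≤ N → N ∉ E → ∀ (γ : ℝ) (y : ℕ), y ≤ N →
      ‖∑ n ∈ Icc 1 y, zr q i ^ cardFactors (n + a) * (starRingEnd ℂ) (zr q i) ^ cardFactors (n + c) *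
        ee (γ * n)‖ ≤ ε * N := by
  classical
  have h1 : ∀ t : ℕ × ℕ, ∃ E : Set ℕ, LZ E ∧ (zr t.1 t.2 ≠ 1 → ∀ a c : ℕ, a ≠ c →
    ∀ ε : ℝ, 0 < ε → ∃ N₀ : ℕ, ∀ N : ℕ, N₀ ≤ N → N ∉ E → ∀ (γ : ℝ) (y : ℕ), y ≤ N →
      ‖∑ n ∈ Icc 1 y, zr t.1 t.2 ^ cardFactors (n + a) * (starRingEnd ℂ) (zr t.1 t.2) ^ cardFactors (n + c) *
        ee (γ * n)‖ ≤ ε * N) := by
    intro t
    by_cases h : zr t.1 t.2 ≠ 1
    · obtain ⟨E, hE, h2⟩ := Pool.Agent.Q42.SH.two_LZ (zr t.1 t.2) (zr_norm _ _) h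
      exact ⟨E, hE, fun _ => h2⟩
    · exact ⟨∅, Pool.Agent.Y842.EL.LZ_empty, fun h' => absurd h' h⟩
  choose E hE h2 using h1
  obtain ⟨F, hF, h3⟩ := Pool.Agent.Y842.EL.LZ_diag' E hE
  refine ⟨F, hF, fun q i hq a c hac ε hε => ?_⟩
  obtain ⟨N₁, h4⟩ := h2 (q, i) hq a c hac ε hε
  obtain ⟨N₂, h5⟩ := h3 (q, i)
  exact ⟨N₁ + N₂, fun N hN hNF γ y hy => h4 N (by omega) (fun h => hNF (h5 N (by omega) h)) γ y hy⟩

theorem prog_sum (G : ℕ → ℂ) {Q : ℕ} (hQ : 1 ≤ Q) (a J : ℕ) :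
    ∑ j ∈ range (J + 1), G (a + Q * j) = ∑ n ∈ Ico a (a + Q * J + 1), if n % Q = a % Q then G n else 0 := by
  induction J with
  | zero => simp
  | succ J ih =>
    rw [sum_range_succ, ih, ← sum_Ico_consecutive _ (show a ≤ a + Q * J + 1 by omega)
      (show a + Q * J + 1 ≤ a + Q * (J + 1) + 1 by rw [mul_add]; omega)]
    congr 1
    rw [sum_Ico_succ_top (by rw [mul_add]; omega)]
    have h1 : ∑ n ∈ Ico (a + Q * J + 1) (a + Q * (J + 1)), (if n % Q = a % Q then G n else 0) = 0 := by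
      apply sum_eq_zero
      intro n hn
      rw [mem_Ico] at hn
      rw [if_neg]
      intro h
      obtain ⟨t, rfl⟩ : ∃ t, n = a + Q * J + t := ⟨n - (a + Q * J), by omega⟩
      have h2 : a + Q * J + t ≡ a + Q * J + 0 [MOD Q] := by
        have : a + Q * J + 0 ≡ a [MOD Q] := by
          simp [Nat.ModEq]
        exact (Nat.ModEq.trans h this.symm)
      have h3 := Nat.ModEq.add_left_cancel' _ h2
      have h4 : t < Q := by
        have := hn.2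
        rw [mul_add] at this
        omega
      have h5 : t = 0 := by
        unfold Nat.ModEq at h3
        rwa [Nat.mod_eq_of_lt h4, Nat.zero_mod] at h3
      omega
    rw [h1, zero_add, if_pos]
    simp

/-- correlations in progressions from correlations twisted by linear phases -/
theorem small_of {Q H0 N : ℕ} (hQ : 1 ≤ Q) {δ : ℝ} {w : ℕ → ℂ} (hw : ∀ n, ‖w n‖ ≤ 1)
    (h : ∀ h : ℕ, 1 ≤ h → h ≤ H0 → ∀ (γ : ℝ) (y : ℕ), y ≤ N →
      ‖∑ n ∈ Icc 1 y, w n * (starRingEnd ℂ) (w (n + h)) * ee (γ * n)‖ ≤ δ) (α β : ℝ) :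
    SmallCorr Q H0 N (2 * (Q * δ) + 1) (fun n => w n * e (α * (n : ℝ) ^ 2 + β * n)) := by
  intro s hs hs2 a J hJ
  have hδ : 0 ≤ δ := (norm_nonneg _).trans (h s hs hs2 0 0 (Nat.zero_le _))
  have hQδ : 0 ≤ (Q : ℝ) * δ := by positivity
  rcases Nat.eq_zero_or_pos J with rfl | hJ0
  · simp only [range_zero, sum_empty, norm_zero]
    positivity
  obtain ⟨J, rfl⟩ : ∃ J', J = J' + 1 := ⟨J - 1, by omega⟩
  have hJ1 := hJ J (by omega)
  -- the product of the phases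
  have hph : ∀ n : ℕ, (w n * e (α * (n : ℝ) ^ 2 + β * n)) * (starRingEnd ℂ) (w (n + s) * e (α * ((n + s : ℕ) : ℝ) ^ 2 + β * ((n + s : ℕ) : ℝ)))
      = (w n * (starRingEnd ℂ) (w (n + s)) * ee ((-2 * α * s) * n)) * ee (-(α * (s : ℝ) ^ 2 + β * s)) := by
    intro n
    have h1 : e (α * (n : ℝ) ^ 2 + β * n) * (starRingEnd ℂ) (e (α * ((n + s : ℕ) : ℝ) ^ 2 + β * ((n + s : ℕ) : ℝ)))
        = ee ((-2 * α * s) * n) * ee (-(α * (s : ℝ) ^ 2 + β * s)) := by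
      unfold e ee
      rw [← Complex.exp_conj, ← Complex.exp_add, ← Complex.exp_add]
      congr 1
      simp only [map_mul, map_add, map_pow, map_ofNat, Complex.conj_ofReal, Complex.conj_I]
      push_cast
      ring
    rw [map_mul]
    linear_combination (w n * (starRingEnd ℂ) (w (n + s))) * h1
  -- the bound for the sums over the beginnings
  have hper : ∀ (γ : ℝ) (y : ℕ), y ≤ N → ‖∑ n ∈ Icc 1 y, (if n % Q = a % Q then
      w n * (starRingEnd ℂ) (w (n + s)) * ee (γ * n) else 0)‖ ≤ Q * δ := by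
    intro γ y hy
    have h1 := Pool.Agent.Y842.PG.per_I y Q hQ (fun n => w n * (starRingEnd ℂ) (w (n + s)))
      (fun n => if n % Q = a % Q then 1 else 0) 0 (fun n => by split_ifs <;> simp) (fun n => by simp) δ
      (fun γ => h s hs hs2 γ y hy) γ
    refine le_trans (le_of_eq ?_) h1
    congr 1
    apply sum_congr rfl
    intro n _
    simp only [add_zero]
    split_ifs <;> ring
  have e0 : ∑ j ∈ range (J + 1), (fun n : ℕ => w n * e (α * (n : ℝ) ^ 2 + β * n)) (a + Q * j) *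
      (starRingEnd ℂ) ((fun n : ℕ => w n * e (α * (n : ℝ) ^ 2 + β * n)) (a + Q * j + s)) =
      (∑ n ∈ Ico a (a + Q * J + 1), if n % Q = a % Q then w n * (starRingEnd ℂ) (w (n + s)) * ee ((-2 * α * s) * n) else 0)
        * ee (-(α * (s : ℝ) ^ 2 + β * s)) := by
    rw [← prog_sum _ hQ, sum_mul]
    apply sum_congr rfl
    intro j _
    exact hph _
  rw [e0, norm_mul, c_norm_ee, mul_one]
  set K : ℕ → ℂ := fun n => if n % Q = a % Q then w n * (starRingEnd ℂ) (w (n + s)) * ee ((-2 * α * s) * n) else 0 with hK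
  have hKn : ∀ n, ‖K n‖ ≤ 1 := by
    intro n
    simp only [hK]
    split_ifs
    · rw [norm_mul, norm_mul, c_norm_ee, mul_one, RCLike.norm_conj]
      exact mul_le_one₀ (hw _) (norm_nonneg _) (hw _)
    · simp
  rcases Nat.eq_zero_or_pos a with ha | ha
  · have e1 : ∑ n ∈ Ico a (a + Q * J + 1), K n = K 0 + ∑ n ∈ Icc 1 (Q * J), K n := by
      rw [ha, ← Finset.range_eq_Ico, zero_add, sum_range_succ', add_comm]
      congr 1
      rw [Finset.range_eq_Ico, sum_Ico_add' (fun n => K n) 0 (Q * J) 1]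
      apply sum_congr _ (fun _ _ => rfl)
      ext n
      simp only [mem_Ico, mem_Icc]
      omega
    rw [e1]
    have h1 := hper (-2 * α * s) (Q * J) (by rw [ha] at hJ1; omega)
    refine (norm_add_le _ _).trans ?_
    have h2 := hKn 0
    have h3 : ‖∑ n ∈ Icc 1 (Q * J), K n‖ ≤ Q * δ := h1
    linarith
  · have e1 : ∑ n ∈ Ico a (a + Q * J + 1), K n = ∑ n ∈ Icc 1 (a + Q * J), K n - ∑ n ∈ Icc 1 (a - 1), K n := by
      have h2 : Icc 1 (a + Q * J) = Ico 1 (a + Q * J + 1) := by ext n; simp only [mem_Ico, mem_Icc]; omega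
      have h3 : Icc 1 (a - 1) = Ico 1 a := by ext n; simp only [mem_Ico, mem_Icc]; omega
      rw [h2, h3, ← sum_Ico_consecutive _ (show 1 ≤ a by omega) (show a ≤ a + Q * J + 1 by omega)]
      ring
    rw [e1]
    refine (norm_sub_le _ _).trans ?_
    have h3 : ‖∑ n ∈ Icc 1 (a + Q * J), K n‖ ≤ Q * δ := hper (-2 * α * s) _ (by omega)
    have h4 : ‖∑ n ∈ Icc 1 (a - 1), K n‖ ≤ Q * δ := hper (-2 * α * s) _ (by omega)
    linarith

/-- synchronous functions, `z ^ Ω(n)` and quadratic phases -/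
theorem omgSyn : ∃ E : Set ℕ, LZ E ∧ ∀ (d : ℕ) (m r : ℕ → ℤ), Adm d m r → ∀ q i : ℕ, zr q i ≠ 1 → ∀ ε : ℝ, 0 < ε →
    ∃ N0 : ℕ, ∀ N : ℕ, N0 ≤ N → N ∉ E → ∀ s : ℤ, (s = 1 ∨ s = -1) → ∀ α β : ℝ, ∀ F : ℤ → ℝ, Syn d m r F →
      ‖∑ n ∈ Icc 1 N, (F (s * (n : ℤ)) : ℂ) * (zr q i ^ cardFactors n * e (α * (n : ℝ) ^ 2 + β * n))‖ ≤ ε * N := by
  obtain ⟨E, hE, hU⟩ := uniE
  refine ⟨E, hE, fun d m r hA q i hz ε hε => ?_⟩
  obtain ⟨Q, H0, η, hQ, hη, H⟩ := orthQ hA hε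
  have hQ0 : (0 : ℝ) < Q := by exact_mod_cast hQ
  have h1 : ∀ h : ℕ, ∃ N₀ : ℕ, 1 ≤ h → ∀ N : ℕ, N₀ ≤ N → N ∉ E → ∀ (γ : ℝ) (y : ℕ), y ≤ N →
      ‖∑ n ∈ Icc 1 y, zr q i ^ cardFactors (n + 0) * (starRingEnd ℂ) (zr q i) ^ cardFactors (n + h) *
        ee (γ * n)‖ ≤ η / (2 * Q) * N := by
    intro h
    by_cases hh : 1 ≤ h
    · obtain ⟨N₀, h2⟩ := hU q i hz 0 h (by omega) (η / (2 * Q)) (by positivity)
      exact ⟨N₀, fun _ => h2⟩
    · exact ⟨0, fun h' => absurd h' hh⟩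
  choose Nf hNf using h1
  obtain ⟨N1, hN1⟩ := H 1 zero_le_one
  refine ⟨N1 + (Icc 1 H0).sup Nf, fun N hN hNE s hs α β F hF => ?_⟩
  refine hN1 N (by omega) s hs _ (fun n => ?_) ?_ F hF
  · rw [norm_mul, norm_pow, zr_norm, one_pow, one_mul]
    exact (c_norm_ee _).le
  · have h2 := small_of (Q := Q) (H0 := H0) (N := N) hQ (δ := η / (2 * Q) * N) (w := fun n => zr q i ^ cardFactors n)
      (fun n => by rw [norm_pow, zr_norm, one_pow]) (fun h hh1 hh2 γ y hy => by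
        have h3 := hNf h hh1 N (by
          have : Nf h ≤ (Icc 1 H0).sup Nf := Finset.le_sup (mem_Icc.2 ⟨hh1, hh2⟩)
          omega) hNE γ y hy
        simpa only [map_pow, add_zero] using h3) α β
    have e1 : 2 * (Q * (η / (2 * Q) * N)) + 1 = η * (N : ℝ) + 1 := by field_simp
    rw [e1] at h2
    exact h2

end Pool.Agent.Q179.PH
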