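import Pool.Agent.Q179.PH.Omg

/-! The number of prime factors modulo `q` jointly with quadratic polynomials modulo one, weighted by synchronous
functions. -/

set_option autoImplicit false

namespace Pool.Agent.Q179.PH

open Finset Filter Topology Pool.Agent.Y965.GP Pool.Agent.H319R3.GC Pool.Agent.Y965.PS
open Pool.Agent.H332R2.Lit (e)
open Pool.Agent.Helper602.MK (ee)
open Pool.Agent.Helper602.MK.N_J1c (c_ee_add c_ee_int c_norm_ee)
open Pool.Agent.Y958.U (LZ)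
open ArithmeticFunction (cardFactors)

theorem exp_one_iff {q : ℕ} (hq : 1 ≤ q) (t : ℤ) :
    Complex.exp (2 * Real.pi * Complex.I * (t / q)) = 1 ↔ (q : ℤ) ∣ t := by
  have hq0 : (q : ℂ) ≠ 0 := by exact_mod_cast (by omega : q ≠ 0)
  rw [Complex.exp_eq_one_iff]
  constructor
  · rintro ⟨n, hn⟩
    have h1 : (2 * Real.pi * Complex.I : ℂ) ≠ 0 := Complex.two_pi_I_ne_zero
    have h2 : (t : ℂ) / q = n := by
      have h3 : (2 * Real.pi * Complex.I : ℂ) * ((t : ℂ) / q) = 2 * Real.pi * Complex.I * n := by rw [hn]; ring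
      exact mul_left_cancel₀ h1 h3
    rw [div_eq_iff hq0] at h2
    have h4 : t = n * q := by exact_mod_cast h2
    exact ⟨n, by rw [h4]; ring⟩
  · rintro ⟨n, rfl⟩
    refine ⟨n, ?_⟩
    push_cast
    field_simp

theorem zr_eq (q i : ℕ) : zr q i = Complex.exp (2 * Real.pi * Complex.I * ((i : ℤ) / q)) := by
  unfold zr ee
  congr 1
  push_cast
  ring

theorem zr_ne {q i : ℕ} (hi : 1 ≤ i) (hiq : i < q) : zr q i ≠ 1 := by
  rw [zr_eq, Ne, exp_one_iff (by omega)]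
  intro h
  have := Int.le_of_dvd (by omega) h
  omega

theorem zr_zero (q : ℕ) : zr q 0 = 1 := by
  rw [zr_eq]
  simp

theorem ind_sum {q : ℕ} (hq : 1 ≤ q) (k l : ℕ) :
    ∑ i ∈ range q, zr q i ^ k * (starRingEnd ℂ) (zr q i ^ l) = if k % q = l % q then (q : ℂ) else 0 := by
  have hq0 : (q : ℂ) ≠ 0 := by exact_mod_cast (by omega : q ≠ 0)
  set w : ℂ := Complex.exp (2 * Real.pi * Complex.I * ((((k : ℤ) - l : ℤ) : ℂ) / q)) with hw
  have h1 : ∀ i : ℕ, zr q i ^ k * (starRingEnd ℂ) (zr q i ^ l) = w ^ i := by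
    intro i
    rw [hw, zr_eq, ← Complex.exp_nat_mul, ← Complex.exp_nat_mul, ← Complex.exp_conj, ← Complex.exp_add,
      ← Complex.exp_nat_mul]
    congr 1
    simp only [map_mul, map_natCast, map_ofNat, Complex.conj_ofReal, Complex.conj_I, map_div₀, map_intCast]
    push_cast
    field_simp
    ring
  rw [sum_congr rfl (fun i _ => h1 i)]
  have h2 : w = 1 ↔ k % q = l % q := by
    rw [hw, exp_one_iff hq]
    constructor
    · intro h
      have h3 : (l : ℤ) ≡ k [ZMOD q] := (Int.modEq_iff_dvd).2 h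
      have h4 : l ≡ k [MOD q] := by exact_mod_cast (Int.natCast_modEq_iff).1 h3
      exact h4.symm
    · intro h
      have h4 : l ≡ k [MOD q] := (show k ≡ l [MOD q] from h).symm
      exact (Int.modEq_iff_dvd).1 ((Int.natCast_modEq_iff).2 h4)
  by_cases h3 : k % q = l % q
  · rw [if_pos h3, h2.2 h3]
    simp
  · rw [if_neg h3]
    have h4 : w ≠ 1 := fun h => h3 (h2.1 h)
    rw [geom_sum_eq h4]
    have h5 : w ^ q = 1 := by
      rw [hw, ← Complex.exp_nat_mul, Complex.exp_eq_one_iff]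
      refine ⟨(k : ℤ) - l, ?_⟩
      push_cast
      field_simp
    rw [h5]
    simp

/-- `1` if `Ω(n) ≡ a mod q`, otherwise `0` -/
noncomputable def om (q a n : ℕ) : ℝ := if cardFactors n % q = a % q then 1 else 0

theorem om_nonneg (q a n : ℕ) : 0 ≤ om q a n := by unfold om; split_ifs <;> norm_num

theorem om_le (q a n : ℕ) : om q a n ≤ 1 := by unfold om; split_ifs <;> norm_num

theorem om_eq {q : ℕ} (hq : 1 ≤ q) (a n : ℕ) : ((om q a n : ℝ) : ℂ) - 1 / q =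
    1 / q * ∑ i ∈ Ico 1 q, (starRingEnd ℂ) (zr q i ^ a) * zr q i ^ cardFactors n := by
  have hq0 : (q : ℂ) ≠ 0 := by exact_mod_cast (by omega : q ≠ 0)
  have h1 := ind_sum hq (cardFactors n) a
  rw [Finset.range_eq_Ico, sum_eq_sum_Ico_succ_bot (by omega)] at h1
  have h2 : ∑ i ∈ Ico 1 q, (starRingEnd ℂ) (zr q i ^ a) * zr q i ^ cardFactors n =
      (if cardFactors n % q = a % q then (q : ℂ) else 0) - 1 := by
    rw [← h1]
    rw [zr_zero]
    simp only [one_pow, map_one, mul_one, zero_add]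
    rw [add_sub_cancel_left]
    exact sum_congr rfl fun i _ => mul_comm _ _
  rw [h2]
  unfold om
  split_ifs
  · push_cast; field_simp
  · push_cast; ring

/-- good exceptional sets -/
def Good (E : Set ℕ) : Prop := ∀ (d : ℕ) (m r : ℕ → ℤ), Adm d m r → ∀ q : ℕ, 1 ≤ q → ∀ ε : ℝ, 0 < ε →
    ∃ N0 : ℕ, ∀ N : ℕ, N0 ≤ N → N ∉ E → ∀ s : ℤ, (s = 1 ∨ s = -1) → ∀ α β : ℝ, ∀ a : ℕ, ∀ F : ℤ → ℝ, Syn d m r F →
      ‖∑ n ∈ Icc 1 N, (F (s * (n : ℤ)) : ℂ) * ((((om q a n : ℝ) : ℂ) - 1 / q) * e (α * (n : ℝ) ^ 2 + β * n))‖ ≤ ε * N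

theorem goodE : ∃ E : Set ℕ, LZ E ∧ Good E := by
  obtain ⟨E, hE, H⟩ := omgSyn
  refine ⟨E, hE, fun d m r hA q hq ε hε => ?_⟩
  have hq0 : (0 : ℝ) < q := by exact_mod_cast hq
  have h1 : ∀ i : ℕ, ∃ N0 : ℕ, i ∈ Ico 1 q → ∀ N : ℕ, N0 ≤ N → N ∉ E → ∀ s : ℤ, (s = 1 ∨ s = -1) → ∀ α β : ℝ,
      ∀ F : ℤ → ℝ, Syn d m r F → ‖∑ n ∈ Icc 1 N, (F (s * (n : ℤ)) : ℂ) *
        (zr q i ^ cardFactors n * e (α * (n : ℝ) ^ 2 + β * n))‖ ≤ ε * N := by
    intro i
    by_cases hi : i ∈ Ico 1 q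
    · rw [mem_Ico] at hi
      obtain ⟨N0, h2⟩ := H d m r hA q i (zr_ne hi.1 hi.2) ε hε
      exact ⟨N0, fun _ => h2⟩
    · exact ⟨0, fun h => absurd h hi⟩
  choose Nf hNf using h1
  refine ⟨(Ico 1 q).sup Nf, fun N hN hNE s hs α β a F hF => ?_⟩
  have e1 : ∑ n ∈ Icc 1 N, (F (s * (n : ℤ)) : ℂ) * ((((om q a n : ℝ) : ℂ) - 1 / q) * e (α * (n : ℝ) ^ 2 + β * n)) =
      1 / q * ∑ i ∈ Ico 1 q, (starRingEnd ℂ) (zr q i ^ a) * ∑ n ∈ Icc 1 N, (F (s * (n : ℤ)) : ℂ) *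
        (zr q i ^ cardFactors n * e (α * (n : ℝ) ^ 2 + β * n)) := by
    simp only [mul_sum]
    rw [sum_comm]
    apply sum_congr rfl
    intro n _
    rw [om_eq hq, mul_sum, sum_mul, mul_sum]
    apply sum_congr rfl
    intro i _
    ring
  rw [e1, norm_mul]
  have h2 : ‖(1 / q : ℂ)‖ = 1 / q := by rw [norm_div, norm_one, Complex.norm_natCast]
  rw [h2]
  have hNR : (0 : ℝ) ≤ N := Nat.cast_nonneg _
  have h3 : ‖∑ i ∈ Ico 1 q, (starRingEnd ℂ) (zr q i ^ a) * ∑ n ∈ Icc 1 N, (F (s * (n : ℤ)) : ℂ) *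
        (zr q i ^ cardFactors n * e (α * (n : ℝ) ^ 2 + β * n))‖ ≤ q * (ε * N) := by
    calc _ ≤ ∑ i ∈ Ico 1 q, ε * (N : ℝ) := by
          refine (norm_sum_le _ _).trans (sum_le_sum fun i hi => ?_)
          rw [norm_mul, RCLike.norm_conj, norm_pow, zr_norm, one_pow, one_mul]
          exact hNf i hi N ((Finset.le_sup hi).trans hN) hNE s hs α β F hF
      _ = ((q - 1 : ℕ) : ℝ) * (ε * N) := by rw [sum_const, Nat.card_Ico, nsmul_eq_mul]
      _ ≤ _ := by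
        apply mul_le_mul_of_nonneg_right _ (by positivity)
        exact_mod_cast Nat.sub_le _ _
  calc 1 / (q : ℝ) * _ ≤ 1 / (q : ℝ) * (q * (ε * N)) := mul_le_mul_of_nonneg_left h3 (by positivity)
    _ = ε * N := by field_simp

variable {d : ℕ} {m r : ℕ → ℤ}

open Polynomial in
theorem psiJoint {E : Set ℕ} (hG : Good E) (hA : Adm d m r) {q : ℕ} (hq : 1 ≤ q) {α : ℝ} (hα : Irrational α)
    {ε : ℝ} (hε : 0 < ε) :
    ∃ N0 : ℕ, ∀ N : ℕ, N0 ≤ N → N ∉ E → ∀ s : ℤ, (s = 1 ∨ s = -1) → ∀ β γ : ℝ, ∀ a : ℕ, ∀ F : ℤ → ℝ, Syn d m r F →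
      (∀ x, 0 ≤ F x) → |∑ n ∈ Icc 1 N, F (s * (n : ℤ)) * om q a n * psi (α * (n : ℝ) ^ 2 + β * n + γ)| ≤ ε * N := by
  set η : ℝ := min (ε / 4) (1 / 2) with hη
  have hη0 : 0 < η := lt_min (by positivity) (by norm_num)
  have hη1 : η < 1 := lt_of_le_of_lt (min_le_right _ _) (by norm_num)
  have hη2 : η ≤ ε / 4 := min_le_left _ _
  obtain ⟨K, hK⟩ := exists_nat_ge (2 / η / (ε / 4) + 1)
  have hK0 : (0 : ℝ) < K := lt_of_lt_of_le (by positivity) hK
  have hK1 : 1 ≤ K := by exact_mod_cast hK0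
  have hj : ∀ j : ℕ, ∃ N0 : ℕ, 1 ≤ j → ∀ N : ℕ, N0 ≤ N → ∀ s : ℤ, (s = 1 ∨ s = -1) → ∀ P : ℝ[X], P.natDegree ≤ 2 →
      P.coeff 2 = j * α → ∀ F : ℤ → ℝ, Syn d m r F →
      ‖∑ n ∈ Icc 1 N, (F (s * (n : ℤ)) : ℂ) * e (P.eval (n : ℝ))‖ ≤ ε / (8 * K) * N := by
    intro j
    by_cases h1 : 1 ≤ j
    · have h2 : Irrational ((j : ℝ) * α) := by
        rw [irrational_natCast_mul_iff]
        exact ⟨by omega, hα⟩
      obtain ⟨N0, h3⟩ := weylIrr hA (le_refl 2) h2 (show 0 < ε / (8 * K) by positivity)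
      exact ⟨N0, fun _ => h3⟩
    · exact ⟨0, fun h => absurd h h1⟩
  choose Nf hNf using hj
  obtain ⟨N1, hN1⟩ := hG d m r hA q hq (ε / (8 * K)) (by positivity)
  refine ⟨N1 + (Icc 1 K).sup Nf, fun N hN hNE s hs β γ a F hF hF0 => ?_⟩
  have key := psi_sum (Icc 1 N) (F := fun n : ℕ => F (s * (n : ℤ)) * om q a n)
    (fun n => mul_nonneg (hF0 _) (om_nonneg _ _ _))
    (fun n => by
      have h1 := (abs_le.1 (hF.1 (s * (n : ℤ)))).2
      exact mul_le_one₀ h1 (om_nonneg _ _ _) (om_le _ _ _))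
    (fun n : ℕ => α * (n : ℝ) ^ 2 + β * n + γ) hK1 hη0 hη1
  have hcard : ((Icc 1 N).card : ℝ) = N := by rw [Nat.card_Icc, Nat.add_sub_cancel]
  rw [hcard] at key
  refine key.trans ?_
  have hNR : (0 : ℝ) ≤ N := Nat.cast_nonneg _
  have hqi : (1 : ℝ) / q ≤ 1 := by
    rw [div_le_one (by exact_mod_cast hq)]
    exact_mod_cast hq
  have h1 : ∑ j ∈ Icc 1 K, 1 / (j : ℝ) * ‖∑ n ∈ Icc 1 N, ((F (s * (n : ℤ)) * om q a n : ℝ) : ℂ) *
      Pool.Agent.H469R2.NK.e (j * (α * (n : ℝ) ^ 2 + β * n + γ))‖ ≤ K * (ε / (4 * K) * N) := by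
    calc _ ≤ ∑ _j ∈ Icc 1 K, (ε / (4 * K) * N) := by
          apply sum_le_sum
          intro j hj
          have hj' := hj
          rw [mem_Icc] at hj
          simp only [e_eq]
          have h3 : 1 / (j : ℝ) ≤ 1 := by
            rw [div_le_one (by exact_mod_cast hj.1)]
            exact_mod_cast hj.1
          have hjN : Nf j ≤ N := by
            have : Nf j ≤ (Icc 1 K).sup Nf := Finset.le_sup hj'
            omega
          have h4 := hNf j hj.1 N hjN s hs (Polynomial.C (j * α) * X ^ 2 + Polynomial.C (j * β) * X + Polynomial.C (j * γ))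
            (natDegree_quadratic_le) (by
              rw [coeff_add, coeff_add, coeff_C_mul_X_pow, coeff_C_mul, coeff_X, coeff_C, if_pos rfl, if_neg (by norm_num),
                if_neg (by norm_num)]
              ring) F hF
          simp only [eval_add, eval_mul, eval_C, eval_pow, eval_X] at h4
          have h5 := hN1 N (by omega) hNE s hs (j * α) (j * β) a F hF
          have e2 : ∑ n ∈ Icc 1 N, ((F (s * (n : ℤ)) * om q a n : ℝ) : ℂ) * e (j * (α * (n : ℝ) ^ 2 + β * n + γ)) =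
              (∑ n ∈ Icc 1 N, (F (s * (n : ℤ)) : ℂ) * ((((om q a n : ℝ) : ℂ) - 1 / q) *
                e (j * α * (n : ℝ) ^ 2 + j * β * n))) * e (j * γ) +
              1 / q * ∑ n ∈ Icc 1 N, (F (s * (n : ℤ)) : ℂ) * e (j * α * (n : ℝ) ^ 2 + j * β * n + j * γ) := by
            rw [sum_mul, mul_sum, ← sum_add_distrib]
            apply sum_congr rfl
            intro n _
            have h6 : e (j * (α * (n : ℝ) ^ 2 + β * n + γ)) = e (j * α * (n : ℝ) ^ 2 + j * β * n) * e (j * γ) := by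
              unfold e
              rw [← Complex.exp_add]
              congr 1
              push_cast
              ring
            have h7 : e (j * α * (n : ℝ) ^ 2 + j * β * n + j * γ) = e (j * α * (n : ℝ) ^ 2 + j * β * n) * e (j * γ) := by
              unfold e
              rw [← Complex.exp_add]
              congr 1
              push_cast
              ring
            rw [h6, h7]
            push_cast
            ring
          have h8 : ‖e (j * γ)‖ = 1 := c_norm_ee _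
          have h9 : ‖(1 / q : ℂ)‖ = 1 / q := by rw [norm_div, norm_one, Complex.norm_natCast]
          have h10 : ‖∑ n ∈ Icc 1 N, ((F (s * (n : ℤ)) * om q a n : ℝ) : ℂ) * e (j * (α * (n : ℝ) ^ 2 + β * n + γ))‖ ≤
              ε / (4 * K) * N := by
            rw [e2]
            refine (norm_add_le _ _).trans ?_
            rw [norm_mul, norm_mul, h8, mul_one, h9]
            have h11 : 1 / (q : ℝ) * ‖∑ n ∈ Icc 1 N, (F (s * (n : ℤ)) : ℂ) * e (j * α * (n : ℝ) ^ 2 + j * β * n + j * γ)‖ ≤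
                1 * (ε / (8 * K) * N) := mul_le_mul hqi h4 (norm_nonneg _) zero_le_one
            have e3 : ε / (4 * K) * (N : ℝ) = ε / (8 * K) * N + 1 * (ε / (8 * K) * N) := by field_simp; ring
            rw [e3]
            exact add_le_add h5 h11
          calc _ ≤ 1 * ‖∑ n ∈ Icc 1 N, ((F (s * (n : ℤ)) * om q a n : ℝ) : ℂ) * e (j * (α * (n : ℝ) ^ 2 + β * n + γ))‖ :=
                mul_le_mul_of_nonneg_right h3 (norm_nonneg _)
            _ ≤ _ := by rw [one_mul]; exact h10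
      _ = _ := by rw [sum_const, Nat.card_Icc, Nat.add_sub_cancel, nsmul_eq_mul]
  have h2 : (K : ℝ) * (ε / (4 * K) * N) = ε / 4 * N := by field_simp
  have h3 : 2 * (N : ℝ) / (η * K) ≤ ε / 4 * N := by
    have h4 : 2 / η / (ε / 4) ≤ K := by linarith
    rw [div_le_iff₀ (by positivity), div_le_iff₀ hη0] at h4
    rw [div_le_iff₀ (by positivity)]
    nlinarith
  have h5 : η * (N : ℝ) ≤ ε / 4 * N := mul_le_mul_of_nonneg_right hη2 hNR
  have h6 : 0 ≤ ε * N := by positivity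
  linarith

open Classical in
/-- the joint law, at almost all scales -/
theorem jointSyn {E : Set ℕ} (hG : Good E) (hA : Adm d m r) {q : ℕ} (hq : 1 ≤ q) {α : ℝ} (hα : Irrational α)
    {ε : ℝ} (hε : 0 < ε) :
    ∃ N0 : ℕ, ∀ N : ℕ, N0 ≤ N → N ∉ E → ∀ s : ℤ, (s = 1 ∨ s = -1) → ∀ β γ : ℝ, ∀ a : ℕ, ∀ F : ℤ → ℝ, Syn d m r F →
      (∀ x, 0 ≤ F x) → ∀ u v : ℝ, 0 ≤ u → u ≤ v → v ≤ 1 →
      |∑ n ∈ Icc 1 N, ((if cardFactors n % q = a % q ∧ u ≤ Int.fract (α * (n : ℝ) ^ 2 + β * n + γ) ∧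
        Int.fract (α * (n : ℝ) ^ 2 + β * n + γ) < v then (1 : ℝ) else 0) - (v - u) / q) * F (s * (n : ℤ))| ≤ ε * N := by
  obtain ⟨N1, h1⟩ := psiJoint hG hA hq hα (show 0 < ε / 3 by positivity)
  obtain ⟨N2, h2⟩ := hG d m r hA q hq (ε / 3) (by positivity)
  refine ⟨N1 + N2, fun N hN hNE s hs β γ a F hF hF0 u v hu huv hv => ?_⟩
  have h3 := h1 N (by omega) hNE s hs β (γ - u) a F hF hF0
  have h4 := h1 N (by omega) hNE s hs β (γ - v) a F hF hF0
  have h5 := h2 N (by omega) hNE s hs 0 0 a F hF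
  have hNR : (0 : ℝ) ≤ N := Nat.cast_nonneg _
  have h6 : |∑ n ∈ Icc 1 N, F (s * (n : ℤ)) * (om q a n - 1 / q)| ≤ ε / 3 * N := by
    have e1 : ∑ n ∈ Icc 1 N, (F (s * (n : ℤ)) : ℂ) * ((((om q a n : ℝ) : ℂ) - 1 / q) * e (0 * (n : ℝ) ^ 2 + 0 * n)) =
        ((∑ n ∈ Icc 1 N, F (s * (n : ℤ)) * (om q a n - 1 / q) : ℝ) : ℂ) := by
      push_cast
      apply sum_congr rfl
      intro n _
      have : e (0 * (n : ℝ) ^ 2 + 0 * n) = 1 := by unfold e; simp
      rw [this, mul_one]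
    rw [e1, Complex.norm_real] at h5
    exact h5
  have e2 : ∑ n ∈ Icc 1 N, ((if cardFactors n % q = a % q ∧ u ≤ Int.fract (α * (n : ℝ) ^ 2 + β * n + γ) ∧
        Int.fract (α * (n : ℝ) ^ 2 + β * n + γ) < v then (1 : ℝ) else 0) - (v - u) / q) * F (s * (n : ℤ)) =
      (v - u) * ∑ n ∈ Icc 1 N, F (s * (n : ℤ)) * (om q a n - 1 / q) +
      ∑ n ∈ Icc 1 N, F (s * (n : ℤ)) * om q a n * psi (α * (n : ℝ) ^ 2 + β * n + (γ - v)) -
      ∑ n ∈ Icc 1 N, F (s * (n : ℤ)) * om q a n * psi (α * (n : ℝ) ^ 2 + β * n + (γ - u)) := by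
    rw [mul_sum, ← sum_add_distrib, ← sum_sub_distrib]
    apply sum_congr rfl
    intro n _
    have h7 := fract_ind hu huv hv (α * (n : ℝ) ^ 2 + β * n + γ)
    have h8 : (if cardFactors n % q = a % q ∧ u ≤ Int.fract (α * (n : ℝ) ^ 2 + β * n + γ) ∧
        Int.fract (α * (n : ℝ) ^ 2 + β * n + γ) < v then (1 : ℝ) else 0) = om q a n *
        (if u ≤ Int.fract (α * (n : ℝ) ^ 2 + β * n + γ) ∧ Int.fract (α * (n : ℝ) ^ 2 + β * n + γ) < v then (1 : ℝ) else 0) := by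
      unfold om
      by_cases h : cardFactors n % q = a % q
      · simp only [h, true_and, if_true, one_mul]
      · simp only [h, false_and, if_false, zero_mul]
    rw [h8, h7]
    have h9 : α * (n : ℝ) ^ 2 + β * n + γ - v = α * (n : ℝ) ^ 2 + β * n + (γ - v) := by ring
    have h10 : α * (n : ℝ) ^ 2 + β * n + γ - u = α * (n : ℝ) ^ 2 + β * n + (γ - u) := by ring
    rw [h9, h10]
    ring
  rw [e2]
  have h7 : |(v - u) * ∑ n ∈ Icc 1 N, F (s * (n : ℤ)) * (om q a n - 1 / q)| ≤ ε / 3 * N := by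
    rw [abs_mul, abs_of_nonneg (by linarith : 0 ≤ v - u)]
    calc _ ≤ 1 * (ε / 3 * N) := mul_le_mul (by linarith) h6 (abs_nonneg _) zero_le_one
      _ = _ := one_mul _
  refine (abs_sub _ _).trans ?_
  have h8 := abs_add_le ((v - u) * ∑ n ∈ Icc 1 N, F (s * (n : ℤ)) * (om q a n - 1 / q))
    (∑ n ∈ Icc 1 N, F (s * (n : ℤ)) * om q a n * psi (α * (n : ℝ) ^ 2 + β * n + (γ - v)))
  linarith

end Pool.Agent.Q179.PH
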