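import Pool.Agent.Q179.PH.Omg2

/-! Logarithmic averages. -/

set_option autoImplicit false

namespace Pool.Agent.Q179.PH

open Finset Filter Topology
open Pool.Agent.Y958.U (LZ)
open Pool.Agent.Y304.U (sE)
open Pool.Agent.Y842.EL (LZ_eps LZ_empty)

theorem aux_sum (E : Set ℕ) (N0 X : ℕ) [inst : ∀ N, Decidable (N ∈ E ∪ {N | N < N0})] :
    (∑ N ∈ Icc 1 X, if N ∈ E ∪ {N | N < N0} then (1 : ℝ) / N else 0) ≤ sE E X + (1 + Real.log N0) := by
  classical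
  have h7 : ∑ N ∈ Icc 1 X, (if N < N0 then (1 : ℝ) / N else 0) ≤ 1 + Real.log N0 := by
    rw [← sum_filter]
    refine (sum_le_sum_of_subset_of_nonneg (t := Icc 1 N0) ?_ (fun _ _ _ => by positivity)).trans
      (Pool.Agent.Q42.SH.harmonic_c N0)
    intro n hn
    rw [mem_filter, mem_Icc] at hn
    rw [mem_Icc]
    omega
  refine le_trans ?_ (add_le_add_right h7 (sE E X))
  unfold sE
  rw [← sum_add_distrib]
  refine sum_le_sum fun n _ => ?_
  unfold Pool.Agent.Y304.U.ind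
  have h8 : (0 : ℝ) ≤ 1 / n := by positivity
  by_cases h9 : n ∈ E
  · have hm : n ∈ E ∪ {N | N < N0} := Set.mem_union_left _ h9
    rw [if_pos hm, if_pos h9]
    split_ifs <;> linarith
  · rw [if_neg h9, zero_div, zero_add]
    by_cases h10 : n < N0
    · have hm : n ∈ E ∪ {N | N < N0} := Set.mem_union_right _ h10
      rw [if_pos hm, if_pos h10]
    · have hm : n ∉ E ∪ {N | N < N0} := by
        rintro (h | h)
        · exact h9 h
        · exact h10 h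
      rw [if_neg h10, if_neg hm]

open Classical in
theorem log_of {E : Set ℕ} (hE : LZ E) {ε : ℝ} (hε : 0 < ε) (N0 : ℕ) : ∃ X0 : ℕ, ∀ X : ℕ, X0 ≤ X → ∀ G : ℕ → ℝ,
    (∀ n, |G n| ≤ 1) → (∀ N : ℕ, N0 ≤ N → N ∉ E → |∑ n ∈ Icc 1 N, G n| ≤ ε / 4 * N) →
    |∑ n ∈ Icc 1 X, G n / n| ≤ ε * Real.log X := by
  obtain ⟨X1, h1⟩ := (LZ_eps E).1 hE (ε / 4) (by positivity)
  obtain ⟨X2, hX2⟩ := eventually_atTop.1 ((tendsto_atTop.1
    (Real.tendsto_log_atTop.comp tendsto_natCast_atTop_atTop)) ((ε / 4 + 2 + Real.log N0) / (ε / 2)))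
  refine ⟨X1 + X2, fun X hX G hG h2 => ?_⟩
  have h3 := h1 X (by omega)
  have h4 : (ε / 4 + 2 + Real.log N0) / (ε / 2) ≤ Real.log X := hX2 X (by omega)
  rw [div_le_iff₀ (by positivity)] at h4
  have h5 := Pool.Agent.Q42.SH.log_c (fun n => ((G n : ℝ) : ℂ)) (fun n => by rw [Complex.norm_real]; exact hG n)
    (ε / 4) (by positivity) X (E ∪ {N | N < N0}) (fun N _ _ hNT => by
      rw [Set.mem_union, not_or] at hNT
      have h6 := h2 N (not_lt.1 hNT.2) hNT.1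
      rw [← Complex.ofReal_sum, Complex.norm_real]
      exact h6)
  have e1 : ∑ n ∈ Icc 1 X, ((G n : ℝ) : ℂ) / n = ((∑ n ∈ Icc 1 X, G n / n : ℝ) : ℂ) := by push_cast; rfl
  rw [e1, Complex.norm_real] at h5
  refine (h5.trans (add_le_add_left (add_le_add_right (aux_sum E N0 X (inst := fun N => Classical.propDecidable _)) _) _)).trans ?_
  linarith

theorem log_dens {G : ℕ → ℝ} (hG0 : ∀ n, 0 ≤ G n) (hG1 : ∀ n, G n ≤ 1) {δ : ℝ} (hδ0 : 0 ≤ δ) (hδ1 : δ ≤ 1)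
    (h : Tendsto (fun N : ℕ => (∑ n ∈ Icc 1 N, G n) / N) atTop (𝓝 δ)) {ε : ℝ} (hε : 0 < ε) :
    ∃ X0 : ℕ, ∀ X : ℕ, X0 ≤ X → |∑ n ∈ Icc 1 X, G n / n - δ * Real.log X| ≤ ε * Real.log X := by
  rw [Metric.tendsto_atTop] at h
  obtain ⟨N1, h1⟩ := h (ε / 2 / 4) (by positivity)
  obtain ⟨X1, h2⟩ := log_of LZ_empty (show 0 < ε / 2 by positivity) (N1 + 1)
  obtain ⟨X2, hX2⟩ := eventually_atTop.1 ((tendsto_atTop.1
    (Real.tendsto_log_atTop.comp tendsto_natCast_atTop_atTop)) (1 / (ε / 2)))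
  refine ⟨X1 + X2 + 1, fun X hX => ?_⟩
  have h3 := h2 X (by omega) (fun n => G n - δ) (fun n => by
    rw [abs_le]
    constructor
    · linarith [hG0 n]
    · linarith [hG1 n]) (fun N hN _ => by
      have hN0 : (0 : ℝ) < N := by exact_mod_cast (by omega : 0 < N)
      have h4 := h1 N (by omega)
      rw [Real.dist_eq] at h4
      have e1 : ∑ n ∈ Icc 1 N, (G n - δ) = ((∑ n ∈ Icc 1 N, G n) / N - δ) * N := by
        rw [sum_sub_distrib, sum_const, Nat.card_Icc, Nat.add_sub_cancel, nsmul_eq_mul]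
        field_simp
      rw [e1, abs_mul, abs_of_pos hN0]
      exact mul_le_mul_of_nonneg_right h4.le hN0.le)
  have h4 : 1 / (ε / 2) ≤ Real.log X := hX2 X (by omega)
  rw [div_le_iff₀ (by positivity)] at h4
  have h5 : ∑ i ∈ Icc 1 X, (1 : ℝ) / i ≤ 1 + Real.log X := Pool.Agent.Q42.SH.harmonic_c X
  have h6 : Real.log X ≤ ∑ i ∈ Icc 1 X, (1 : ℝ) / i := by
    have h7 := log_add_one_le_harmonic X
    have h9 : ∑ i ∈ Icc 1 X, (1 : ℝ) / i = ((harmonic X : ℚ) : ℝ) := by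
      rw [harmonic_eq_sum_Icc]
      push_cast
      apply sum_congr rfl
      intro i _
      rw [one_div]
    rw [h9]
    refine le_trans ?_ h7
    apply Real.log_le_log (by exact_mod_cast (by omega : 0 < X))
    push_cast
    linarith
  have e2 : ∑ n ∈ Icc 1 X, (G n - δ) / n = ∑ n ∈ Icc 1 X, G n / n - δ * ∑ i ∈ Icc 1 X, (1 : ℝ) / i := by
    rw [mul_sum, ← sum_sub_distrib]
    apply sum_congr rfl
    intro n _
    ring
  rw [e2] at h3
  have h7 : |δ * (∑ i ∈ Icc 1 X, (1 : ℝ) / i - Real.log X)| ≤ 1 := by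
    rw [abs_mul, abs_of_nonneg hδ0, abs_of_nonneg (by linarith)]
    calc δ * (∑ i ∈ Icc 1 X, (1 : ℝ) / i - Real.log X) ≤ 1 * 1 :=
          mul_le_mul hδ1 (by linarith) (by linarith) zero_le_one
      _ = 1 := one_mul 1
  have e3 : ∑ n ∈ Icc 1 X, G n / n - δ * Real.log X =
      (∑ n ∈ Icc 1 X, G n / n - δ * ∑ i ∈ Icc 1 X, (1 : ℝ) / i) + δ * (∑ i ∈ Icc 1 X, (1 : ℝ) / i - Real.log X) := by ring
  rw [e3]
  refine (abs_add_le _ _).trans ?_
  linarith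

end Pool.Agent.Q179.PH
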