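import Pool.Agent.Y965.GP.Par

/-! Synchronous functions of contracting generalised Collatz maps of coprime type are orthogonal to the sequences whose
correlations in progressions vanish. -/

set_option autoImplicit false

namespace Pool.Agent.Q179.PH

open Finset Filter Topology Pool.Agent.Y965.GP Pool.Agent.H319R3.GC

/-- synchronous functions -/
def Syn (d : ℕ) (m r : ℕ → ℤ) (F : ℤ → ℝ) : Prop :=
  (∀ x, |F x| ≤ 1) ∧ ∀ (k : ℕ) (x y : ℤ), (d : ℤ) ^ (8 * k) < |x| → (d : ℤ) ^ (8 * k) < |y| →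
    (Tm d m r)^[k] x = (Tm d m r)^[k] y → F x = F y

/-- the sequence `z` has small correlations in the progressions with difference `Q`, for the shifts `h ≤ H0` -/
def SmallCorr (Q H0 N : ℕ) (B : ℝ) (z : ℕ → ℂ) : Prop := ∀ h : ℕ, 1 ≤ h → h ≤ H0 → ∀ a J : ℕ,
  (∀ j < J, a + Q * j + h ≤ N) → ‖∑ j ∈ range J, z (a + Q * j) * (starRingEnd ℂ) (z (a + Q * j + h))‖ ≤ B

variable {d : ℕ} {m r : ℕ → ℤ}

theorem orthQ (hA : Adm d m r) {ε : ℝ} (hε : 0 < ε) :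
    ∃ Q H0 : ℕ, ∃ η : ℝ, 1 ≤ Q ∧ 0 < η ∧ ∀ C : ℝ, 0 ≤ C → ∃ N0 : ℕ, ∀ N : ℕ, N0 ≤ N → ∀ s : ℤ, (s = 1 ∨ s = -1) →
      ∀ z : ℕ → ℂ, (∀ n, ‖z n‖ ≤ 1) → SmallCorr Q H0 N (η * N + C) z → ∀ F : ℤ → ℝ, Syn d m r F →
      ‖∑ n ∈ Icc 1 N, (F (s * (n : ℤ)) : ℂ) * z n‖ ≤ ε * N := by
  classical
  obtain ⟨σ, ρ, C0, lam, hσ0, hσ1, hρ0, hρσ, hC0, hl0, hl1, hkd⟩ := kd hA
  have hd2 := hA.two_le
  have hdR : (2 : ℝ) ≤ d := by exact_mod_cast hd2
  set θ : ℝ := ε ^ 2 / 12 with hθ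
  have hθ0 : 0 < θ := by positivity
  -- the choice of `R`
  obtain ⟨R, hR1, hR⟩ : ∃ R : ℝ, 1 ≤ R ∧ C0 * R ^ (-lam) ≤ ε / 16 := by
    have h1 : Tendsto (fun R : ℝ => C0 * R ^ (-lam)) atTop (𝓝 (C0 * 0)) := (tendsto_rpow_neg_atTop hl0).const_mul C0
    rw [mul_zero] at h1
    obtain ⟨R, h2, h3⟩ := ((h1.eventually (eventually_le_nhds (show (0 : ℝ) < ε / 16 by positivity))).and
      (eventually_ge_atTop 1)).exists
    exact ⟨R, h3, h2⟩
  -- the choice of `k`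
  obtain ⟨k, hk1, hk2⟩ : ∃ k : ℕ, 2 * (σ ^ k * ((k : ℝ) + 1) ^ d) ≤ θ / 2 ∧ σ ^ k ≤ ε / 16 := by
    have h1 : Tendsto (fun k : ℕ => ((k : ℝ)) ^ d * σ ^ k) atTop (𝓝 0) :=
      tendsto_pow_const_mul_const_pow_of_abs_lt_one d (by rw [abs_of_pos hσ0]; exact hσ1)
    have h2 : Tendsto (fun k : ℕ => (((k + 1 : ℕ) : ℝ)) ^ d * σ ^ (k + 1)) atTop (𝓝 0) := h1.comp (tendsto_add_atTop_nat 1)
    have h3 : Tendsto (fun k : ℕ => 2 / σ * ((((k + 1 : ℕ) : ℝ)) ^ d * σ ^ (k + 1))) atTop (𝓝 (2 / σ * 0)) := h2.const_mul _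
    rw [mul_zero] at h3
    have h4 : Tendsto (fun k : ℕ => σ ^ k) atTop (𝓝 0) := tendsto_pow_atTop_nhds_zero_of_lt_one hσ0.le hσ1
    obtain ⟨k, h5, h6⟩ := ((h3.eventually (eventually_le_nhds (show (0 : ℝ) < θ / 2 by positivity))).and
      (h4.eventually (eventually_le_nhds (show (0 : ℝ) < ε / 16 by positivity)))).exists
    refine ⟨k, le_trans (le_of_eq ?_) h5, h6⟩
    push_cast
    rw [pow_succ]
    field_simp
  set Q : ℕ := d ^ k with hQ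
  have hQ1 : 1 ≤ Q := Nat.one_le_pow _ _ (by omega)
  set H : ℝ := 2 * R * (d : ℝ) ^ k with hH
  set H0 : ℕ := ⌊H⌋₊ with hH0
  set η : ℝ := 1 / (2 * Q * (H0 + 1)) with hη
  have hQR : (1 : ℝ) ≤ Q := by exact_mod_cast hQ1
  have hη0 : 0 < η := by positivity
  refine ⟨Q, H0, η, hQ1, hη0, fun C hC => ?_⟩
  set C1 : ℝ := H0 * C with hC1
  have hC10 : 0 ≤ C1 := by positivity
  obtain ⟨M1, hM1⟩ := exists_nat_ge (2 * Q * C1)
  obtain ⟨M2, hM2⟩ := exists_nat_ge ((2 * R + 1) * ((k : ℝ) + 1) ^ d / (θ / 2))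
  obtain ⟨M3, hM3⟩ := exists_nat_ge ((d : ℝ) ^ (8 * k) / (ε / 4))
  refine ⟨M1 + M2 + M3 + Q + 1, fun N hN s hs z hz1 hz F hF => ?_⟩
  have hN1 : (1 : ℝ) ≤ N := by exact_mod_cast (by omega : 1 ≤ N)
  have hNM1 : (M1 : ℝ) ≤ N := by exact_mod_cast (by omega : M1 ≤ N)
  have hNM2 : (M2 : ℝ) ≤ N := by exact_mod_cast (by omega : M2 ≤ N)
  have hNM3 : (M3 : ℝ) ≤ N := by exact_mod_cast (by omega : M3 ≤ N)
  have hK := hkd s hs k N R (by omega) hR1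
  set N1 : ℕ := d ^ (8 * k) with hN1d
  have hN1s : (N1 : ℝ) ≤ ε / 4 * N := by
    have h1 := hM3.trans hNM3
    rw [div_le_iff₀ (by positivity)] at h1
    rw [hN1d]; push_cast
    linarith
  set V : ℝ := (2 * (N * σ ^ k + R) + 1) * ((k : ℝ) + 1) ^ d with hV
  set Bd : ℝ := 2 * N * (σ ^ k + C0 * R ^ (-lam)) with hBd
  have hVs : V ≤ θ * N := by
    have h1 := hM2.trans hNM2
    rw [div_le_iff₀ (by positivity)] at h1
    have h2 : 2 * (σ ^ k * ((k : ℝ) + 1) ^ d) * N ≤ θ / 2 * N := mul_le_mul_of_nonneg_right hk1 (by linarith)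
    calc V = 2 * (σ ^ k * ((k : ℝ) + 1) ^ d) * N + (2 * R + 1) * ((k : ℝ) + 1) ^ d := by rw [hV]; ring
      _ ≤ θ / 2 * N + N * (θ / 2) := add_le_add h2 h1
      _ = θ * N := by ring
  have hBs : Bd ≤ ε / 4 * N := by
    rw [hBd]
    nlinarith
  -- the dispersion inequality
  have hdisp := disp hK N1 (F := fun n : ℕ => F (s * (n : ℤ))) (fun n => hF.1 _) (fun n n' hn hn' g g' hkey => by
      have hab : ∀ n : ℕ, N1 < n → (d : ℤ) ^ (8 * k) < |s * (n : ℤ)| := by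
        intro n hn
        have e : |s * (n : ℤ)| = n := by
          rcases hs with rfl | rfl
          · rw [one_mul, abs_of_nonneg (Int.natCast_nonneg n)]
          · rw [neg_one_mul, abs_neg, abs_of_nonneg (Int.natCast_nonneg n)]
        rw [e]
        exact_mod_cast hn
      refine hF.2 k _ _ (hab n hn) (hab n' hn') ?_
      exact congrArg Prod.fst hkey) (z := z) hz1 (β := fun _ => η * N + C)
    (fun h => add_nonneg (by positivity) hC) (fun h h1 h2 m0 J hm0 hJ =>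
      hz h h1 (Nat.le_floor h2) m0 J hJ)
  have hsumβ : ∑ _h ∈ Icc 1 ⌊H⌋₊, (η * N + C) = H0 * (η * N) + C1 := by
    rw [sum_const, Nat.card_Icc, Nat.add_sub_cancel, nsmul_eq_mul, hC1]
    ring
  have hmain : ‖∑ n ∈ GS (Gd d m r ρ R s k) N1 N, (F (s * (n : ℤ)) : ℂ) * z n‖ ^ 2 ≤ (ε / 2 * N) ^ 2 := by
    refine hdisp.trans ?_
    rw [hsumβ]
    have h1 : (N : ℝ) + 2 * (((Q : ℕ) : ℝ) * (H0 * (η * N) + C1)) ≤ 3 * N := by
      have h2 : 2 * ((Q : ℝ) * (H0 * (η * N))) ≤ N := by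
        have h3 : 2 * ((Q : ℝ) * (H0 * (η * N))) = (H0 / (H0 + 1)) * N := by
          rw [hη]; field_simp
        rw [h3]
        apply mul_le_of_le_one_left (by linarith)
        rw [div_le_one (by positivity)]
        linarith
      have h4 := hM1.trans hNM1
      nlinarith
    have hV0 : 0 ≤ V := by
      rw [hV]; positivity
    calc V * ((N : ℝ) + 2 * (((Q : ℕ) : ℝ) * (H0 * (η * N) + C1))) ≤ (θ * N) * (3 * N) :=
          mul_le_mul hVs h1 (by positivity) (by positivity)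
      _ = (ε / 2 * N) ^ 2 := by rw [hθ]; ring
  have hmain' : ‖∑ n ∈ GS (Gd d m r ρ R s k) N1 N, (F (s * (n : ℤ)) : ℂ) * z n‖ ≤ ε / 2 * N :=
    le_of_sq_le_sq hmain (by positivity)
  -- the decomposition
  have hone : ∀ n : ℕ, ‖(F (s * (n : ℤ)) : ℂ) * z n‖ ≤ 1 := by
    intro n
    rw [norm_mul, Complex.norm_real, Real.norm_eq_abs]
    have h1 := hF.1 (s * (n : ℤ))
    have h2 := hz1 n
    calc |F (s * (n : ℤ))| * ‖z n‖ ≤ 1 * 1 := mul_le_mul h1 h2 (norm_nonneg _) zero_le_one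
      _ = 1 := one_mul 1
  set f : ℕ → ℂ := fun n => (F (s * (n : ℤ)) : ℂ) * z n with hf
  set Sb := (Ioc N1 N).filter (fun n : ℕ => ¬ Gd d m r ρ R s k n) with hSb
  have hsplit : ∑ n ∈ Icc 1 N, f n = ∑ n ∈ (Icc 1 N).filter (fun n => n ≤ N1), f n +
      (∑ n ∈ GS (Gd d m r ρ R s k) N1 N, f n + ∑ n ∈ Sb, f n) := by
    have e1 : ∑ n ∈ GS (Gd d m r ρ R s k) N1 N, f n + ∑ n ∈ Sb, f n = ∑ n ∈ Ioc N1 N, f n := by
      rw [hSb]
      unfold GS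
      exact sum_filter_add_sum_filter_not _ _ _
    rw [e1, ← sum_filter_add_sum_filter_not (Icc 1 N) (fun n => n ≤ N1)]
    congr 1
    apply sum_congr _ fun _ _ => rfl
    ext n
    rw [mem_filter, mem_Icc, mem_Ioc]
    omega
  have hnorm : ∀ S : Finset ℕ, ‖∑ n ∈ S, f n‖ ≤ S.card := by
    intro S
    refine (norm_sum_le _ _).trans ?_
    refine (sum_le_sum fun n _ => hone n).trans ?_
    simp
  have hb1 : ((((Icc 1 N).filter (fun n => n ≤ N1)).card : ℕ) : ℝ) ≤ N1 := by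
    have : ((Icc 1 N).filter (fun n => n ≤ N1)).card ≤ N1 := by
      calc _ ≤ (Icc 1 N1).card := card_le_card fun n hn => by
            rw [mem_filter, mem_Icc] at hn
            rw [mem_Icc]; omega
        _ = N1 := by simp
    exact_mod_cast this
  have hb2 : ((Sb.card : ℕ) : ℝ) ≤ Bd := by
    apply hK.bad
    intro n hn
    rw [hSb, mem_filter, mem_Ioc] at hn
    exact ⟨by omega, hn.2⟩
  rw [hsplit]
  calc _ ≤ ‖∑ n ∈ (Icc 1 N).filter (fun n => n ≤ N1), f n‖ +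
        (‖∑ n ∈ GS (Gd d m r ρ R s k) N1 N, f n‖ + ‖∑ n ∈ Sb, f n‖) :=
        (norm_add_le _ _).trans (add_le_add le_rfl (norm_add_le _ _))
    _ ≤ ε / 4 * N + (ε / 2 * N + ε / 4 * N) :=
        add_le_add ((hnorm _).trans (hb1.trans hN1s)) (add_le_add hmain' ((hnorm _).trans (hb2.trans hBs)))
    _ = ε * N := by ring

end Pool.Agent.Q179.PH
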