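import Pool.Agent.Q179.PH.Orth
import Pool.Agent.H238R3.UL.Poly
import Pool.Agent.Y965.PS.Maj

/-! Polynomials modulo one along the synchronous functions of contracting generalised Collatz maps of coprime type. -/

set_option autoImplicit false

namespace Pool.Agent.Q179.PH

open Finset Filter Topology Pool.Agent.Y965.GP Pool.Agent.H319R3.GC Polynomial Pool.Agent.H238R3.UL
open Pool.Agent.H332R2.Lit (e e_add norm_e conj_e)

variable {d : ℕ} {m r : ℕ → ℤ}

theorem comp_aff (P : ℝ[X]) (k : ℕ) (hP : P.natDegree ≤ k) (a Q : ℝ) :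
    (P.comp (C Q * X + C a)).natDegree ≤ k ∧ (P.comp (C Q * X + C a)).coeff k = Q ^ k * P.coeff k := by
  have hlin : (C Q * X + C a : ℝ[X]).natDegree ≤ 1 := natDegree_linear_le
  constructor
  · refine natDegree_comp_le.trans ?_
    calc _ ≤ P.natDegree * 1 := Nat.mul_le_mul le_rfl hlin
      _ ≤ k := by omega
  · rw [comp_eq_sum_left, P.sum_over_range' (by simp) (k + 1) (by omega), finsetSum_coeff, sum_range_succ]
    have h1 : ∑ i ∈ range k, (C (P.coeff i) * (C Q * X + C a) ^ i).coeff k = 0 := by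
      apply sum_eq_zero
      intro i hi
      rw [mem_range] at hi
      rw [coeff_C_mul]
      have h0 : ((C Q * X + C a : ℝ[X]) ^ i).coeff k = 0 := by
        apply coeff_eq_zero_of_natDegree_lt
        calc ((C Q * X + C a : ℝ[X]) ^ i).natDegree ≤ i * 1 := natDegree_pow_le_of_le i hlin
          _ < k := by omega
      rw [h0, mul_zero]
    rw [h1, zero_add, coeff_C_mul]
    have h2 : ((C Q * X + C a : ℝ[X]) ^ k).coeff k = Q ^ k := by
      have := coeff_pow_of_natDegree_le (p := (C Q * X + C a : ℝ[X])) (m := k) (n := 1) hlin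
      rw [mul_one] at this
      rw [this]
      simp
    rw [h2]; ring

/-- the Weyl inequality for synchronous functions -/
theorem weylSyn (hA : Adm d m r) {k : ℕ} (hk : 2 ≤ k) {ε : ℝ} (hε : 0 < ε) : ∃ M : ℕ, 1 ≤ M ∧ ∀ η : ℝ, 0 < η →
    ∃ N0 : ℕ, ∀ N : ℕ, N0 ≤ N → ∀ s : ℤ, (s = 1 ∨ s = -1) → ∀ P : ℝ[X], P.natDegree ≤ k →
      (∀ l ∈ Icc 1 M, η ≤ |(l : ℝ) * P.coeff k - round ((l : ℝ) * P.coeff k)|) → ∀ F : ℤ → ℝ, Syn d m r F →
      ‖∑ n ∈ Icc 1 N, (F (s * (n : ℤ)) : ℂ) * e (P.eval (n : ℝ))‖ ≤ ε * N := by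
  obtain ⟨Q, H0, κ, hQ, hκ, H⟩ := orthQ hA hε
  obtain ⟨k', rfl⟩ : ∃ k', k = k' + 2 := ⟨k - 2, by omega⟩
  obtain ⟨M, hM, hW⟩ := weyl_unif k' κ hκ
  refine ⟨M * ((k' + 2) * (H0 + 1) * Q ^ (k' + 1)), Nat.one_le_iff_ne_zero.2 (by positivity), fun η hη => ?_⟩
  obtain ⟨J0, hJ0⟩ := hW η hη
  obtain ⟨N0, hN0⟩ := H J0 (Nat.cast_nonneg _)
  refine ⟨N0, fun N hN s hs P hP hPc F hF => hN0 N hN s hs _ (fun n => (norm_e _).le) ?_ F hF⟩
  intro h h1 h2 a J hJ
  have hJN : J ≤ N := by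
    rcases Nat.eq_zero_or_pos J with h0 | h0
    · omega
    · have h3 := hJ (J - 1) (by omega)
      have h4 : J - 1 ≤ Q * (J - 1) := Nat.le_mul_of_pos_left _ hQ
      omega
  have hNR : (0 : ℝ) ≤ N := Nat.cast_nonneg _
  -- the difference polynomial
  obtain ⟨g1, g2⟩ := diff_coeff P k' hP (h : ℝ)
  obtain ⟨c1, c2⟩ := comp_aff (taylor (h : ℝ) P - P) (k' + 1) g1 a Q
  set G : ℝ[X] := -((taylor (h : ℝ) P - P).comp (C (Q : ℝ) * X + C (a : ℝ))) with hG
  have hGd : G.natDegree ≤ k' + 1 := by rw [hG, natDegree_neg]; exact c1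
  have hGc : G.coeff (k' + 1) = -(((k' + 2 : ℕ) * h * Q ^ (k' + 1) : ℕ) * P.coeff (k' + 2)) := by
    rw [hG, coeff_neg, c2, g2]
    push_cast; ring
  have hterm : ∀ j ∈ range J, e (P.eval ((a + Q * j : ℕ) : ℝ)) * (starRingEnd ℂ) (e (P.eval ((a + Q * j + h : ℕ) : ℝ))) =
      e (G.eval (j : ℝ)) := by
    intro j _
    rw [conj_e, ← e_add, hG, eval_neg, eval_comp, eval_sub, taylor_eval]
    simp only [eval_add, eval_mul, eval_C, eval_X]
    congr 1
    push_cast
    ring_nf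
  rw [sum_congr rfl hterm]
  rcases lt_or_ge J J0 with hJ1 | hJ1
  · have h3 : ‖∑ j ∈ range J, e (G.eval (j : ℝ))‖ ≤ J := by
      refine (norm_sum_le _ _).trans ?_
      simp [norm_e]
    have h4 : (J : ℝ) ≤ J0 := by exact_mod_cast hJ1.le
    have h5 : 0 ≤ κ * N := by positivity
    linarith
  · have h3 := hJ0 G hGd (fun l hl => by
      rw [mem_Icc] at hl
      rw [hGc]
      have h4 := hPc (l * ((k' + 2) * h * Q ^ (k' + 1))) (by
        rw [mem_Icc]
        constructor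
        · apply Nat.one_le_iff_ne_zero.2
          have : l ≠ 0 := by omega
          have : h ≠ 0 := by omega
          positivity
        · gcongr
          · exact hl.2
          · omega)
      have e1 : (l : ℝ) * -(((((k' + 2 : ℕ) * h * Q ^ (k' + 1) : ℕ)) : ℝ) * P.coeff (k' + 2)) =
          -(((l * ((k' + 2) * h * Q ^ (k' + 1)) : ℕ) : ℝ) * P.coeff (k' + 2)) := by
        push_cast; ring
      rw [e1]
      refine h4.trans ?_
      set y : ℝ := ((l * ((k' + 2) * h * Q ^ (k' + 1)) : ℕ) : ℝ) * P.coeff (k' + 2) with hy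
      have h5 := round_le y (-round (-y))
      refine h5.trans (le_of_eq ?_)
      rw [← abs_neg]
      congr 1
      push_cast
      ring) J hJ1
    have h4 : (J : ℝ) ≤ N := by exact_mod_cast hJN
    have h5 : (0 : ℝ) ≤ J0 := Nat.cast_nonneg _
    nlinarith

end Pool.Agent.Q179.PH
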